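import Pool.Agent.H54Sharp.Stmt

/-!
# MP_2d7e0f_pr, sharp asymptotics, upper bound, row U4 (helper46): products and up-movement of one row
-/

set_option autoImplicit false

namespace Pool.Agent.ASY

open Finset MeasureTheory intervalIntegral

namespace Row46

/-! ### sums -/

lemma sum_block (K m : ℕ) (f : ℕ → ℕ → ℝ) :
    ∑ k ∈ range (m * K), f (k / K) (k % K) = ∑ c ∈ range m, ∑ j ∈ range K, f c j := by
  rcases Nat.eq_zero_or_pos K with rfl | hK
  · simp
  induction m with
  | zero => simp
  | succ m ih =>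
    rw [add_mul, one_mul, sum_range_add, ih, sum_range_succ]
    congr 1
    refine sum_congr rfl fun j hj => ?_
    have hj' := mem_range.1 hj
    rw [add_comm, Nat.add_mul_div_right _ _ hK, Nat.div_eq_of_lt hj', zero_add, Nat.add_mul_mod_self_right,
      Nat.mod_eq_of_lt hj']

lemma sum_half (R₂ : ℕ) (A B : ℝ) : ∑ j ∈ range (2 * R₂), (if j < R₂ then A else B) = R₂ * A + R₂ * B := by
  rw [two_mul, sum_range_add]
  rw [sum_congr rfl (g := fun _ => A) fun j hj => if_pos (mem_range.1 hj),
    sum_congr rfl (g := fun _ => B) fun j _ => if_neg (by omega)]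
  simp

lemma shift_sum {m i : ℕ} (hi : i ≤ m) (A : ℕ → ℝ) :
    ∑ c ∈ range m, A ((c + i) % m) = ∑ c ∈ range m, A c := by
  rcases Nat.eq_zero_or_pos m with rfl | hm
  · simp
  have hmaps : Set.MapsTo (fun c => (c + i) % m) (range m : Finset ℕ) (range m : Finset ℕ) := by
    intro c _
    simp only [coe_range, Set.mem_Iio]
    exact Nat.mod_lt _ hm
  have hinj : Set.InjOn (fun c => (c + i) % m) (range m : Finset ℕ) := by
    intro c hc d hd h
    simp only [coe_range, Set.mem_Iio] at hc hd
    simp only at h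
    have h1 := Nat.ModEq.add_right_cancel' i (show c + i ≡ d + i [MOD m] from h)
    exact Nat.ModEq.eq_of_lt_of_lt h1 hc hd
  have hsurj : Set.SurjOn (fun c => (c + i) % m) (range m : Finset ℕ) (range m : Finset ℕ) :=
    Finset.surjOn_of_injOn_of_card_le _ hmaps hinj le_rfl
  exact sum_nbij (fun c => (c + i) % m) (fun c hc => hmaps hc) hinj hsurj fun c _ => rfl

/-! ### one cell -/

lemma log_int {l : ℝ} (hl : 0 < l) {u : ℝ} (hu : l ≤ u) : IntervalIntegrable Real.log volume l u := by
  apply ContinuousOn.intervalIntegrable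
  intro p hp
  rw [Set.uIcc_of_le hu] at hp
  exact (Real.continuousAt_log (hl.trans_le hp.1).ne').continuousWithinAt

/-- midpoint rule -/
lemma mid_le {l η : ℝ} (hl : 0 < l) (hη : 0 < η) :
    η * Real.log (l + η / 2) ≤ (∫ p in l..l + η, Real.log p) + η ^ 3 / l ^ 2 := by
  set c := l + η / 2 with hc
  have hc0 : 0 < c := by positivity
  have hcl : l ≤ c := by rw [hc]; linarith
  have h1 : (∫ p in l..l + η, (Real.log c + (p - c) / c - (p - c) ^ 2 / l ^ 2)) ≤ ∫ p in l..l + η, Real.log p := by
    apply integral_mono_on (by linarith) _ (log_int hl (by linarith))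
    · intro p hp
      have hp0 : 0 < p := hl.trans_le hp.1
      have h2 : Real.log c - Real.log p ≤ c / p - 1 := by
        rw [← Real.log_div hc0.ne' hp0.ne']
        exact Real.log_le_sub_one_of_pos (by positivity)
      have h3 : (p - c) / c - (p - c) ^ 2 / l ^ 2 ≤ 1 - c / p := by
        have h4 : 1 - c / p = (p - c) / c - (p - c) ^ 2 / (p * c) := by
          field_simp
          ring
        rw [h4]
        have h5 : (p - c) ^ 2 / (p * c) ≤ (p - c) ^ 2 / l ^ 2 := by
          apply div_le_div_of_nonneg_left (sq_nonneg _) (by positivity)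
          rw [pow_two]
          exact mul_le_mul hp.1 hcl hl.le hp0.le
        linarith
      linarith
    · apply Continuous.intervalIntegrable
      fun_prop
  have h2 : (∫ p in l..l + η, (Real.log c + (p - c) / c - (p - c) ^ 2 / l ^ 2)) =
      η * Real.log c - η ^ 3 / (12 * l ^ 2) := by
    have e : ∀ p, HasDerivAt (fun p => Real.log c * p + (p - c) ^ 2 / (2 * c) - (p - c) ^ 3 / (3 * l ^ 2))
        (Real.log c + (p - c) / c - (p - c) ^ 2 / l ^ 2) p := by
      intro p
      have h3 : HasDerivAt (fun p : ℝ => p - c) 1 p := (hasDerivAt_id p).sub_const c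
      have h4 : HasDerivAt (fun p => Real.log c * p + (p - c) ^ 2 / (2 * c) - (p - c) ^ 3 / (3 * l ^ 2))
          (Real.log c * 1 + ((2 : ℕ) : ℝ) * (p - c) ^ (2 - 1) * 1 / (2 * c) -
            ((3 : ℕ) : ℝ) * (p - c) ^ (3 - 1) * 1 / (3 * l ^ 2)) p :=
        (((hasDerivAt_id p).const_mul (Real.log c)).add ((h3.pow 2).div_const (2 * c))).sub
          ((h3.pow 3).div_const (3 * l ^ 2))
      apply h4.congr_deriv
      norm_num
      field_simp
    rw [integral_eq_sub_of_hasDerivAt (fun p _ => e p)]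
    · have e1 : l + η - c = η / 2 := by rw [hc]; ring
      have e2 : l - c = -(η / 2) := by rw [hc]; ring
      rw [e1, e2]
      field_simp
      ring
    · apply Continuous.intervalIntegrable
      fun_prop
  have h3 : η ^ 3 / (12 * l ^ 2) ≤ η ^ 3 / l ^ 2 := by
    apply div_le_div_of_nonneg_left (by positivity) (by positivity)
    nlinarith [sq_nonneg l]
  linarith

/-- two points of a cell with a sum slightly above twice the midpoint -/
lemma pair_le {l η L₀ δ y z : ℝ} (hL : 0 < L₀) (hl : L₀ ≤ l) (hη : 0 < η) (hδ : 0 ≤ δ) (hy : 0 < y) (hz : 0 < z)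
    (hyz : y + z = 2 * l + η + 2 * δ) :
    Real.log y + Real.log z ≤ 2 * (1 / η * (∫ p in l..l + η, Real.log p) + η ^ 2 / L₀ ^ 2 + δ / L₀) := by
  have hl0 : 0 < l := hL.trans_le hl
  set c := l + η / 2 with hc
  have hc0 : 0 < c := by positivity
  have h1 : Real.log y + Real.log z ≤ 2 * Real.log (c + δ) := by
    rw [← Real.log_mul hy.ne' hz.ne', show (2 : ℝ) * Real.log (c + δ) = Real.log ((c + δ) ^ 2) by
      rw [Real.log_pow]; norm_num]
    apply Real.log_le_log (by positivity)
    have : c + δ = (y + z) / 2 := by rw [hyz, hc]; ring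
    rw [this]
    nlinarith [sq_nonneg (y - z)]
  have h2 : Real.log (c + δ) ≤ Real.log c + δ / L₀ := by
    have h3 : Real.log (c + δ) - Real.log c ≤ (c + δ) / c - 1 := by
      rw [← Real.log_div (by positivity) hc0.ne']
      exact Real.log_le_sub_one_of_pos (by positivity)
    have h4 : (c + δ) / c - 1 = δ / c := by field_simp; ring
    have h5 : δ / c ≤ δ / L₀ := div_le_div_of_nonneg_left hδ hL (by rw [hc]; linarith)
    linarith
  have h3 := mid_le hl0 hη
  rw [← hc] at h3
  have h4 : Real.log c ≤ 1 / η * (∫ p in l..l + η, Real.log p) + η ^ 2 / L₀ ^ 2 := by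
    have h5 : η ^ 3 / l ^ 2 ≤ η ^ 3 / L₀ ^ 2 :=
      div_le_div_of_nonneg_left (by positivity) (by positivity) (by gcongr)
    have h6 : η * Real.log c ≤ η * (1 / η * (∫ p in l..l + η, Real.log p) + η ^ 2 / L₀ ^ 2) := by
      have e : η * (1 / η * (∫ p in l..l + η, Real.log p) + η ^ 2 / L₀ ^ 2) =
          (∫ p in l..l + η, Real.log p) + η ^ 3 / L₀ ^ 2 := by
        field_simp
      rw [e]
      linarith
    exact le_of_mul_le_mul_left h6 hη
  linarith

/-- telescoping of the integrals over the cells -/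
lemma sum_int {y η : ℝ} (hy : 0 < y) (hη : 0 < η) (N : ℕ) :
    ∑ c ∈ range N, (∫ p in (y + c * η)..(y + c * η + η), Real.log p) = ∫ p in y..y + N * η, Real.log p := by
  have h := sum_integral_adjacent_intervals (f := Real.log) (μ := volume) (a := fun c : ℕ => y + c * η) (n := N)
    (fun k _ => log_int (by positivity) (by push_cast; nlinarith))
  simp only [Nat.cast_zero, zero_mul, add_zero] at h
  rw [← h]
  refine sum_congr rfl fun c _ => ?_
  congr 1
  push_cast
  ring

/-- telescoping of the logarithms of the ends of the cells -/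
lemma sum_log {y η : ℝ} (hy : 0 < y) (hη : 0 < η) (N : ℕ) :
    ∑ c ∈ range N, Real.log ((y + c * η + η) / (y + c * η)) = Real.log ((y + N * η) / y) := by
  have h : ∀ c : ℕ, Real.log ((y + c * η + η) / (y + c * η)) =
      Real.log (y + (c + 1 : ℕ) * η) - Real.log (y + c * η) := by
    intro c
    rw [Real.log_div (by positivity) (by positivity)]
    congr 2
    push_cast
    ring
  rw [sum_congr rfl fun c _ => h c, sum_range_sub (fun c : ℕ => Real.log (y + c * η))]
  rw [Real.log_div (by positivity) (by positivity)]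
  simp


/-! ### the row -/

open H54Sharp

variable {m h r S J : ℕ} {L R : ℕ → ℝ} {a : ℕ → ℕ} {g : ℕ}

lemma L_mono (hB : Bands m J L R a) : ∀ g ≤ J, L 0 ≤ L g := by
  intro g
  induction g with
  | zero => intro _; exact le_rfl
  | succ g ih => intro hg; exact (ih (by omega)).trans (hB.mono g (by omega))

lemma R_ge (hB : Bands m J L R a) : ∀ d ≤ J, L 0 ≤ R (J - d) := by
  intro d
  induction d with
  | zero => intro _; rw [Nat.sub_zero, ← hB.meet]; exact L_mono hB J le_rfl
  | succ d ih =>
    intro hd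
    have h1 := hB.anti (J - (d + 1)) (by omega)
    have h2 : J - (d + 1) + 1 = J - d := by omega
    rw [h2] at h1
    exact (ih (by omega)).trans h1

lemma R_ge' (hB : Bands m J L R a) (hg : g ≤ J) : L 0 ≤ R g := by
  have := R_ge hB (J - g) (by omega)
  rwa [show J - (J - g) = g by omega] at this

lemma X_ge (hB : Bands m J L R a) (hg : g ≤ J) : L 0 ≤ Xg L R g := by
  unfold Xg
  have : 0 ≤ ∑ h ∈ range g, Mg L R h :=
    sum_nonneg fun h hh => (hB.mpos h (by have := mem_range.1 hh; omega)).le
  linarith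

lemma cell_ge (hm : 1 ≤ m) (hB : Bands m J L R a) (hg : g < J) (c : ℕ) : L 0 ≤ cellLeft m L R a g c := by
  have hM := hB.mpos g hg
  unfold cellLeft
  split_ifs with hc
  · have := L_mono hB g hg.le
    have : 0 ≤ (c : ℝ) * (Mg L R g / m) := by positivity
    linarith
  · have := R_ge' hB (g := g + 1) hg
    have h1 : (a g : ℝ) ≤ c := by exact_mod_cast not_lt.1 hc
    have : 0 ≤ ((c : ℝ) - a g) * (Mg L R g / m) := mul_nonneg (by linarith) (by positivity)
    linarith

/-- the ends of the two parts of a band -/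
lemma L_succ (hm : 1 ≤ m) (hB : Bands m J L R a) (hg : g < J) : L (g + 1) = L g + a g * (Mg L R g / m) := by
  have h1 := hB.left g hg
  have hm0 : (m : ℝ) ≠ 0 := by positivity
  field_simp
  linarith

lemma R_eq (hm : 1 ≤ m) (hB : Bands m J L R a) (hg : g < J) :
    R g = R (g + 1) + ((m - a g : ℕ) : ℝ) * (Mg L R g / m) := by
  have h1 := L_succ hm hB hg
  have hm0 : (m : ℝ) ≠ 0 := by positivity
  have h2 : Mg L R g = (L (g + 1) - L g) + (R g - R (g + 1)) := rfl
  have h3 : (m : ℝ) * (Mg L R g / m) = Mg L R g := by field_simp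
  rw [Nat.cast_sub (hB.ale g hg), sub_mul, h3]
  linarith

lemma sum_cells (hB : Bands m J L R a) (hg : g < J) (F : ℝ → ℝ) :
    ∑ c ∈ range m, F (cellLeft m L R a g c) =
      ∑ c ∈ range (a g), F (L g + c * (Mg L R g / m)) +
        ∑ c ∈ range (m - a g), F (R (g + 1) + c * (Mg L R g / m)) := by
  have key : ∀ (N A : ℕ), A ≤ N → ∑ c ∈ range N, F (cellLeft m L R a g c) =
      ∑ c ∈ range A, F (cellLeft m L R a g c) + ∑ c ∈ range (N - A), F (cellLeft m L R a g (A + c)) := by
    intro N A hA
    obtain ⟨b, rfl⟩ := Nat.exists_eq_add_of_le hA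
    rw [sum_range_add, Nat.add_sub_cancel_left]
  rw [key m (a g) (hB.ale g hg)]
  congr 1
  · refine sum_congr rfl fun c hc => ?_
    rw [cellLeft, if_pos (mem_range.1 hc)]
  · refine sum_congr rfl fun c _ => ?_
    rw [cellLeft, if_neg (by omega)]
    congr 2
    push_cast
    ring

lemma int_log {l u : ℝ} : ∫ p in l..u, Real.log p = Fl u - Fl l := by
  rw [integral_log]
  unfold Fl
  ring

/-- the sum over the main columns -/
lemma main_sum {i : ℕ} (hi : i ≤ m) (A B : ℝ → ℝ) :
    ∑ k ∈ range (m * (2 * h)), (if k / m < h then A (cellLeft m L R a g ((k % m + i) % m))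
      else B (cellLeft m L R a g ((k % m + (m - i)) % m))) =
    h * ∑ c ∈ range m, A (cellLeft m L R a g c) + h * ∑ c ∈ range m, B (cellLeft m L R a g c) := by
  have h1 := sum_block m (2 * h) (fun j c => if j < h then A (cellLeft m L R a g ((c + i) % m))
      else B (cellLeft m L R a g ((c + (m - i)) % m)))
  rw [mul_comm (2 * h) m] at h1
  rw [h1]
  have h2 : ∀ j : ℕ, ∑ c ∈ range m, (if j < h then A (cellLeft m L R a g ((c + i) % m))
      else B (cellLeft m L R a g ((c + (m - i)) % m))) =
      if j < h then ∑ c ∈ range m, A (cellLeft m L R a g c) else ∑ c ∈ range m, B (cellLeft m L R a g c) := by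
    intro j
    split_ifs with hj
    · exact shift_sum hi (fun c => A (cellLeft m L R a g c))
    · exact shift_sum (Nat.sub_le m i) (fun c => B (cellLeft m L R a g c))
  rw [sum_congr rfl fun j _ => h2 j, sum_half]


/-- the sum over the extra columns -/
lemma extra_sum (A B : ℝ) (r : ℕ) :
    ∑ e ∈ range r, (if e % 2 = 0 then A else B) = (r / 2 : ℕ) * (A + B) + (r % 2 : ℕ) * A := by
  induction r with
  | zero => simp
  | succ r ih =>
    rw [sum_range_succ, ih]
    rcases Nat.mod_two_eq_zero_or_one r with h0 | h0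
    · have h1 : (r + 1) / 2 = r / 2 := by omega
      have h2 : (r + 1) % 2 = 1 := by omega
      rw [if_pos h0, h1, h2, h0]
      push_cast
      ring
    · have h1 : (r + 1) / 2 = r / 2 + 1 := by omega
      have h2 : (r + 1) % 2 = 0 := by omega
      rw [if_neg (by omega), h1, h2, h0]
      push_cast
      ring

/-- values of the corner in the two kinds of columns -/
lemma corner_main {i s k : ℕ} (hk : k < m * (2 * h)) : corner m h S L R a g i s k =
    if k / m < h then cellLeft m L R a g ((k % m + i) % m) + ((s : ℝ) + 1) * (Mg L R g / m / S)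
    else cellLeft m L R a g ((k % m + (m - i)) % m) + ((S : ℝ) - s) * (Mg L R g / m / S) := by
  rw [corner, if_pos hk]

lemma corner_extra {i s : ℕ} (e : ℕ) : corner m h S L R a g i s (m * (2 * h) + e) =
    if e % 2 = 0 then Xg L R g + ((i : ℝ) * S + s + 1) * (Mg L R g / m / S)
    else Xg L R g + (((m : ℝ) - 1 - i) * S + (S - s)) * (Mg L R g / m / S) := by
  rw [corner, if_neg (by omega), Nat.add_sub_cancel_left]

lemma corner_pos (hm : 1 ≤ m) (hS : 1 ≤ S) (hB : Bands m J L R a) (hg : g < J) {i s : ℕ} (hi : i < m) (hs : s < S)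
    (k : ℕ) : 0 < corner m h S L R a g i s k := by
  have hM := hB.mpos g hg
  have hL := hB.pos
  have hη : 0 < Mg L R g / m / S := by positivity
  have hs' : (s : ℝ) + 1 ≤ S := by exact_mod_cast hs
  have hi' : (i : ℝ) + 1 ≤ m := by exact_mod_cast hi
  by_cases hk : k < m * (2 * h)
  · rw [corner_main hk]
    split_ifs
    · have := cell_ge hm hB hg ((k % m + i) % m)
      have : 0 < ((s : ℝ) + 1) * (Mg L R g / m / S) := by positivity
      linarith
    · have := cell_ge hm hB hg ((k % m + (m - i)) % m)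
      have : 0 < ((S : ℝ) - s) * (Mg L R g / m / S) := mul_pos (by linarith) hη
      linarith
  · obtain ⟨e, rfl⟩ := Nat.exists_eq_add_of_le (not_lt.1 hk)
    rw [corner_extra]
    have := X_ge hB hg.le
    split_ifs
    · have : 0 < ((i : ℝ) * S + s + 1) * (Mg L R g / m / S) := by positivity
      linarith
    · have h1 : 0 ≤ ((m : ℝ) - 1 - i) * S := mul_nonneg (by linarith) (by positivity)
      have : 0 < (((m : ℝ) - 1 - i) * S + (S - s)) * (Mg L R g / m / S) := mul_pos (by linarith) hη
      linarith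

/-- the sum of the logarithms of the coordinates of a corner -/
lemma log_sum (hm : 1 ≤ m) (hS : 1 ≤ S) (hB : Bands m J L R a) (hg : g < J) {i s : ℕ} (hi : i < m) (hs : s < S) :
    ∑ k ∈ range (m * (2 * h) + r), Real.log (corner m h S L R a g i s k) ≤
      2 * h / (Mg L R g / m) * ((Fl (L (g + 1)) - Fl (L g)) + (Fl (R g) - Fl (R (g + 1)))) +
      r / Mg L R g * (Fl (Xg L R (g + 1)) - Fl (Xg L R g)) +
      (2 * h * m * ((Mg L R g / m) ^ 2 / L 0 ^ 2 + Mg L R g / m / (2 * S) / L 0) +
      (r * (Mg L R g ^ 2 / L 0 ^ 2 + Mg L R g / m / (2 * S) / L 0) + Mg L R g / L 0)) := by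
  have hM := hB.mpos g hg
  have hL := hB.pos
  have hm0 : (0 : ℝ) < m := by exact_mod_cast hm
  have hS0 : (0 : ℝ) < S := by exact_mod_cast hS
  have hs' : (s : ℝ) + 1 ≤ S := by exact_mod_cast hs
  have hi' : (i : ℝ) + 1 ≤ m := by exact_mod_cast hi
  set M := Mg L R g with hMdef
  set η := M / m with hη
  have hη0 : 0 < η := by positivity
  have hηS : 0 < η / S := by positivity
  set δ := η / (2 * S) with hδ
  have hδ0 : 0 ≤ δ := by positivity
  rw [sum_range_add]
  -- main columns
  have hmain : ∑ k ∈ range (m * (2 * h)), Real.log (corner m h S L R a g i s k) ≤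
      2 * h / η * ((Fl (L (g + 1)) - Fl (L g)) + (Fl (R g) - Fl (R (g + 1)))) +
        2 * h * m * (η ^ 2 / L 0 ^ 2 + δ / L 0) := by
    have e1 : ∀ k ∈ range (m * (2 * h)), Real.log (corner m h S L R a g i s k) =
        if k / m < h then (fun y => Real.log (y + ((s : ℝ) + 1) * (η / S))) (cellLeft m L R a g ((k % m + i) % m))
        else (fun y => Real.log (y + ((S : ℝ) - s) * (η / S))) (cellLeft m L R a g ((k % m + (m - i)) % m)) := by
      intro k hk
      rw [corner_main (mem_range.1 hk)]
      split_ifs <;> rfl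
    rw [sum_congr rfl e1, main_sum (h := h) (L := L) (R := R) (a := a) (g := g) hi.le
      (fun y => Real.log (y + ((s : ℝ) + 1) * (η / S))) (fun y => Real.log (y + ((S : ℝ) - s) * (η / S))),
      ← mul_add, ← sum_add_distrib]
    have e2 : ∀ c ∈ range m, (fun y => Real.log (y + ((s : ℝ) + 1) * (η / S))) (cellLeft m L R a g c) +
        (fun y => Real.log (y + ((S : ℝ) - s) * (η / S))) (cellLeft m L R a g c) ≤
        2 * (1 / η * (fun y => ∫ p in y..y + η, Real.log p) (cellLeft m L R a g c) + η ^ 2 / L 0 ^ 2 + δ / L 0) := by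
      intro c _
      have h1 := cell_ge hm hB hg c
      apply pair_le hL h1 hη0 hδ0
      · have : 0 < ((s : ℝ) + 1) * (η / S) := by positivity
        linarith
      · have : 0 < ((S : ℝ) - s) * (η / S) := mul_pos (by linarith) hηS
        linarith
      · rw [hδ]
        field_simp
        ring
    have e3 : ∑ c ∈ range m, (fun y => ∫ p in y..y + η, Real.log p) (cellLeft m L R a g c) =
        (Fl (L (g + 1)) - Fl (L g)) + (Fl (R g) - Fl (R (g + 1))) := by
      rw [sum_cells hB hg (fun y => ∫ p in y..y + η, Real.log p)]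
      have hLg : 0 < L g := hL.trans_le (L_mono hB g hg.le)
      have hRg : 0 < R (g + 1) := hL.trans_le (R_ge' hB hg)
      have s1 := sum_int hLg hη0 (a g)
      have s2 := sum_int hRg hη0 (m - a g)
      simp only [← hMdef, ← hη]
      rw [s1, s2, int_log, int_log, L_succ hm hB hg, ← hMdef, ← hη]
      congr 2
      have := R_eq hm hB hg
      rw [← hMdef, ← hη] at this
      rw [← this]
    calc (h : ℝ) * ∑ c ∈ range m, ((fun y => Real.log (y + ((s : ℝ) + 1) * (η / S))) (cellLeft m L R a g c) +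
          (fun y => Real.log (y + ((S : ℝ) - s) * (η / S))) (cellLeft m L R a g c))
        ≤ (h : ℝ) * ∑ c ∈ range m, (2 * (1 / η * (fun y => ∫ p in y..y + η, Real.log p) (cellLeft m L R a g c) +
          η ^ 2 / L 0 ^ 2 + δ / L 0)) := by gcongr with c hc; exact e2 c hc
      _ = _ := by
          rw [← mul_sum, sum_add_distrib, sum_add_distrib, ← mul_sum, e3]
          simp only [sum_const, card_range, nsmul_eq_mul]
          ring
  -- extra columns
  have hextra : ∑ e ∈ range r, Real.log (corner m h S L R a g i s (m * (2 * h) + e)) ≤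
      r / M * (Fl (Xg L R (g + 1)) - Fl (Xg L R g)) + (r * (M ^ 2 / L 0 ^ 2 + δ / L 0) + M / L 0) := by
    set A := Real.log (Xg L R g + ((i : ℝ) * S + s + 1) * (η / S)) with hA
    set B := Real.log (Xg L R g + (((m : ℝ) - 1 - i) * S + (S - s)) * (η / S)) with hBB
    have e1 : ∀ e ∈ range r, Real.log (corner m h S L R a g i s (m * (2 * h) + e)) = if e % 2 = 0 then A else B := by
      intro e _
      rw [corner_extra]
      split_ifs <;> rfl
    rw [sum_congr rfl e1, extra_sum]
    have hX : L 0 ≤ Xg L R g := X_ge hB hg.le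
    have hX0 : 0 < Xg L R g := hL.trans_le hX
    have hXs : Xg L R (g + 1) = Xg L R g + M := by
      unfold Xg
      rw [sum_range_succ, ← hMdef]
      ring
    have hmη : (m : ℝ) * η = M := by rw [hη]; field_simp
    have hI : (∫ p in Xg L R g..Xg L R g + M, Real.log p) = Fl (Xg L R (g + 1)) - Fl (Xg L R g) := by
      rw [int_log, hXs]
    have hAB : A + B ≤ 2 * (1 / M * (Fl (Xg L R (g + 1)) - Fl (Xg L R g)) + M ^ 2 / L 0 ^ 2 + δ / L 0) := by
      rw [← hI]
      apply pair_le hL hX hM hδ0
      · have : 0 < ((i : ℝ) * S + s + 1) * (η / S) := by positivity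
        linarith
      · have h1 : 0 ≤ ((m : ℝ) - 1 - i) * S := mul_nonneg (by linarith) (by positivity)
        have : 0 < (((m : ℝ) - 1 - i) * S + (S - s)) * (η / S) := mul_pos (by linarith) hηS
        linarith
      · rw [hδ, ← hmη]
        field_simp
        ring
    -- one column
    have hA1 : A ≤ 1 / M * (Fl (Xg L R (g + 1)) - Fl (Xg L R g)) + M / L 0 := by
      have h1 : A ≤ Real.log (Xg L R g + M) := by
        apply Real.log_le_log
        · have : 0 < ((i : ℝ) * S + s + 1) * (η / S) := by positivity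
          linarith
        · have h2 : ((i : ℝ) * S + s + 1) * (η / S) ≤ M := by
            rw [← hmη]
            have h3 : ((i : ℝ) * S + s + 1) ≤ m * S := by nlinarith
            calc ((i : ℝ) * S + s + 1) * (η / S) ≤ (m * S) * (η / S) := by gcongr
              _ = m * η := by field_simp
          linarith
      have h2 : Real.log (Xg L R g + M) ≤ Real.log (Xg L R g) + M / L 0 := by
        have h3 : Real.log (Xg L R g + M) - Real.log (Xg L R g) ≤ (Xg L R g + M) / Xg L R g - 1 := by
          rw [← Real.log_div (by positivity) hX0.ne']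
          exact Real.log_le_sub_one_of_pos (by positivity)
        have h4 : (Xg L R g + M) / Xg L R g - 1 = M / Xg L R g := by field_simp; ring
        have h5 : M / Xg L R g ≤ M / L 0 := div_le_div_of_nonneg_left hM.le hL hX
        linarith
      have h3 : Real.log (Xg L R g) ≤ 1 / M * (Fl (Xg L R (g + 1)) - Fl (Xg L R g)) := by
        rw [← hI]
        have h4 : (∫ _ in Xg L R g..Xg L R g + M, Real.log (Xg L R g)) ≤
            ∫ p in Xg L R g..Xg L R g + M, Real.log p := by
          apply integral_mono_on (by linarith) _ (log_int hX0 (by linarith))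
          · intro p hp
            exact Real.log_le_log hX0 hp.1
          · exact intervalIntegrable_const
        rw [intervalIntegral.integral_const, add_sub_cancel_left, smul_eq_mul] at h4
        calc Real.log (Xg L R g) = 1 / M * (M * Real.log (Xg L R g)) := by field_simp
          _ ≤ _ := by gcongr
      linarith
    set Q := 1 / M * (Fl (Xg L R (g + 1)) - Fl (Xg L R g)) with hQ
    have hr : (r : ℝ) = 2 * (r / 2 : ℕ) + (r % 2 : ℕ) := by exact_mod_cast (Nat.div_add_mod r 2).symm
    have hr1 : ((r % 2 : ℕ) : ℝ) ≤ 1 := by exact_mod_cast (by omega : r % 2 ≤ 1)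
    have hE : 0 ≤ M ^ 2 / L 0 ^ 2 + δ / L 0 := by positivity
    have hML : 0 ≤ M / L 0 := by positivity
    have f1 : ((r / 2 : ℕ) : ℝ) * (A + B) ≤ (r / 2 : ℕ) * (2 * (Q + (M ^ 2 / L 0 ^ 2 + δ / L 0))) := by
      apply mul_le_mul_of_nonneg_left _ (Nat.cast_nonneg _)
      linarith
    have f2 : ((r % 2 : ℕ) : ℝ) * A ≤ (r % 2 : ℕ) * (Q + M / L 0) :=
      mul_le_mul_of_nonneg_left hA1 (Nat.cast_nonneg _)
    have f3 : ((r % 2 : ℕ) : ℝ) * (M / L 0) ≤ M / L 0 := by nlinarith
    have f4 : (2 * ((r / 2 : ℕ) : ℝ)) * (M ^ 2 / L 0 ^ 2 + δ / L 0) ≤ r * (M ^ 2 / L 0 ^ 2 + δ / L 0) := by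
      apply mul_le_mul_of_nonneg_right _ hE
      rw [hr]
      have : (0 : ℝ) ≤ (r % 2 : ℕ) := Nat.cast_nonneg _
      linarith
    have f5 : r / M * (Fl (Xg L R (g + 1)) - Fl (Xg L R g)) = r * Q := by rw [hQ]; ring
    have f6 : (r : ℝ) * Q = 2 * (r / 2 : ℕ) * Q + (r % 2 : ℕ) * Q := by
      rw [← add_mul, ← hr]
    rw [f5, f6]
    linarith
  have := add_le_add hmain hextra
  linarith

end Row46

open H54Sharp Row46 in
/-- **U4**, volume -/
theorem volumeRow46 : VolumeRow := by
  intro m h r S J L R a y hm hS hh hr hB hT g hg i hi s hs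
  have hM := hB.mpos g hg
  have hL := hB.pos
  have hm0 : (0 : ℝ) < m := by exact_mod_cast hm
  have hm1 : (1 : ℝ) ≤ m := by exact_mod_cast hm
  have hS0 : (0 : ℝ) < S := by exact_mod_cast hS
  have hh0 : (1 : ℝ) ≤ h := by exact_mod_cast hh
  have hr0 : (r : ℝ) ≤ 2 * h := by exact_mod_cast hr.le
  have h1 := log_sum (h := h) (r := r) hm hS hB hg hi hs
  have h2 := hT g hg
  have e1 : ∏ k ∈ range (m * (2 * h) + r), corner m h S L R a g i s k =
      Real.exp (∑ k ∈ range (m * (2 * h) + r), Real.log (corner m h S L R a g i s k)) := by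
    rw [Real.exp_sum]
    exact prod_congr rfl fun k _ => (Real.exp_log (corner_pos hm hS hB hg hi hs k)).symm
  rw [e1]
  apply Real.exp_le_exp.2
  set M := Mg L R g with hMdef
  have e2 : 2 * h / (M / m) * ((Fl (L (g + 1)) - Fl (L g)) + (Fl (R g) - Fl (R (g + 1)))) +
      r / M * (Fl (Xg L R (g + 1)) - Fl (Xg L R g)) = -((m * (2 * h) + r : ℕ) : ℝ) + y g := by
    rw [← mul_right_inj' hM.ne']
    have : M * (2 * h / (M / m) * ((Fl (L (g + 1)) - Fl (L g)) + (Fl (R g) - Fl (R (g + 1)))) +
      r / M * (Fl (Xg L R (g + 1)) - Fl (Xg L R g))) = ((m * (2 * h) : ℕ) : ℝ) *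
    ((Fl (L (g + 1)) - Fl (L g)) + (Fl (R g) - Fl (R (g + 1)))) +
    r * (Fl (Xg L R (g + 1)) - Fl (Xg L R g)) := by
      push_cast
      field_simp
    rw [this, h2]
    ring
  have e3 : 2 * h * m * ((M / m) ^ 2 / L 0 ^ 2 + M / m / (2 * S) / L 0) =
      2 * h * (M / L 0) ^ 2 / m + h * M / (S * L 0) := by
    field_simp
  have e4 : 2 * h * (M / L 0) ^ 2 / m ≤ 2 * h * (M / L 0) ^ 2 := div_le_self (by positivity) hm1
  have e5 : (r : ℝ) * (M ^ 2 / L 0 ^ 2 + M / m / (2 * S) / L 0) ≤ 2 * h * (M / L 0) ^ 2 + h * M / (S * L 0) := by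
    have e6 : (2 * h : ℝ) * (M ^ 2 / L 0 ^ 2 + M / m / (2 * S) / L 0) = 2 * h * (M / L 0) ^ 2 + h * M / (S * L 0) / m := by
      field_simp
    have e7 : (r : ℝ) * (M ^ 2 / L 0 ^ 2 + M / m / (2 * S) / L 0) ≤ (2 * h : ℝ) * (M ^ 2 / L 0 ^ 2 + M / m / (2 * S) / L 0) := by
      gcongr
    have e8 : h * M / (S * L 0) / m ≤ h * M / (S * L 0) := div_le_self (by positivity) hm1
    linarith
  have e9 : 4 * h * M / (S * L 0) = 4 * (h * M / (S * L 0)) := by ring
  have e10 : 0 ≤ h * M / (S * L 0) := by positivity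
  linarith

end Pool.Agent.ASY
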