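import Mathlib

/-!
# MP_2d7e0f_pr, sharp asymptotics, upper bound: the corners of one row of a band (definitions)
-/

set_option autoImplicit false

namespace Pool.Agent.ASY

/-- left end of the cell `c` of a band with `a` cells of length `η` from `Lp` and `m - a` cells of length `η` from
`Rn` -/
noncomputable def lft (a : ℕ) (Lp Rn η : ℝ) (c : ℕ) : ℝ :=
  if c < a then Lp + c * η else Rn + ((c : ℝ) - a) * η

/-- the corner of the step `s < S` of the row `i < m`, column `k < n = m (2 R₂) + r` -/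
noncomputable def bb (m R₂ a S : ℕ) (Lp Rn η x : ℝ) (i s k : ℕ) : ℝ :=
  if k < m * (2 * R₂) then
    (if k % (2 * R₂) < R₂ then lft a Lp Rn η ((k / (2 * R₂) + i) % m) + ((s : ℝ) + 1) / S * η
    else lft a Lp Rn η ((k / (2 * R₂) + (m - i)) % m) + ((S : ℝ) - s) / S * η)
  else
    (if (k - m * (2 * R₂)) % 2 = 0 then x + ((i : ℝ) + ((s : ℝ) + 1) / S) * η
    else x + (((m : ℝ) - 1 - i) + ((S : ℝ) - s) / S) * η)

end Pool.Agent.ASY
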